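import Pool.Agent.H618R3.BM.Grp
import Pool.Agent.H618R3.BM.Alg

/-!
# MP_ac6992_gt: a non-amenable subgroup of `Map(ℝ² ∖ C)` without quasimorphisms

There is a non-amenable subgroup `H` of the mapping class group of the plane minus a Cantor set for
which `Q(H) / Hom(H, ℝ)` is zero.  So Q1 has a negative answer (the negated form is proved).

The subgroup.  It consists of mapping classes of the form `(x, y) ↦ (F x, y)`, where `F` is an
increasing homeomorphism of the line preserving the Cantor set.  Away from its end points, the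
Cantor set is a chain of blocks indexed by the integers, and `F` permutes the blocks by a
translation.  The maps `F` with translation number zero are commutators `[K, σ]`, where `σ` is the
shift of the chain, so all homogeneous quasimorphisms are multiples of the translation number.
Each block is itself such a chain; maps that act in each block by the shift `T` of the inner chain,
and by a map `P` with `P T³ = T² P` which takes every third inner block onto every second one,
show that there is no invariant mean (`1/3 = 1/2`).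

The definitions of the statement are in `Pool.Agent.H618R3.BM.Defs`.
-/

set_option autoImplicit false
open Set

namespace Pool.Agent.Results.MP_ac6992_gt.NonAmenableNoQuasi

open Pool.Agent.H618R3.BM

/-- the homomorphism to the mapping class group -/
noncomputable def toM : H0 →* Map planeCantor where
  toFun F := toMap ⟨ext F.1, ext_mem_LineC F.1 F.2.2.1⟩
  map_one' := by
    have : (⟨ext (1 : H0).1, ext_mem_LineC _ (1 : H0).2.2.1⟩ : LineC) = 1 := by
      apply Subtype.ext
      exact map_one ext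
    rw [this, map_one]
  map_mul' F G := by
    rw [← map_mul]
    congr 1
    apply Subtype.ext
    exact map_mul ext F.1 G.1

theorem toM_eq {F G : H0} (h : toM F = toM G) {x : ℝ} (hx : x ∈ Ct) : F.1 x = G.1 x := by
  have h1 : toM (G⁻¹ * F) = 1 := by rw [map_mul, map_inv, h, inv_mul_cancel]
  have h2 : toPlus ⟨ext (G⁻¹ * F).1, ext_mem_LineC _ (G⁻¹ * F).2.2.1⟩ ∈
      Homeo0Plus planeCantor :=
    (QuotientGroup.eq_one_iff _).mp h1
  have h3 := fix_of_isotopic _ h2 (th x) hx
  change extF (G⁻¹ * F).1 (th x) = th x at h3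
  rw [extF_th] at h3
  have h4 : G.1⁻¹ (F.1 x) = x := th_mono.injective h3
  calc F.1 x = G.1 (G.1⁻¹ (F.1 x)) := (RelIso.apply_inv_self _ _).symm
    _ = G.1 x := by rw [h4]

theorem not_amenable : ¬ IsAmenable toM.range := by
  rintro ⟨μ, hμ0, hμ1, hadd, hinv⟩
  obtain ⟨T, hT, hT1⟩ := exists_blk sg (fun x => Ct_add_one x)
  obtain ⟨P₀, hP₀, hpar⟩ := exists_psi
  obtain ⟨P, hP, hP1⟩ := exists_blk P₀ hP₀
  -- the base point
  obtain ⟨y₀, hy₀⟩ := th_surj (show (0 : ℝ) < 2 / 3 + 1 / 36 by norm_num) (by norm_num)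
  have t0 : th 0 = 1 / 2 := by have := th_int 0; simpa [orb_zero] using this
  have t1 : th 1 = 5 / 6 := by have := th_int 1; simpa [orb_one] using this
  have hy0 : 0 < y₀ := by rw [← th_mono.lt_iff_lt, hy₀, t0]; norm_num
  have hy1 : y₀ < 1 := by rw [← th_mono.lt_iff_lt, hy₀, t1]; norm_num
  have hfr : Int.fract y₀ = y₀ := Int.fract_eq_self.mpr ⟨hy0.le, hy1⟩
  have hyJ : y₀ ∈ J := by
    change 2 / 3 < th (Int.fract y₀) ∧ th (Int.fract y₀) < 7 / 9
    rw [hfr, hy₀]; constructor <;> norm_num
  have hyC : y₀ ∈ Ct := by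
    change th y₀ ∈ cantorSet
    rw [hy₀, mem_mid (by norm_num) (by norm_num)]
    convert quarter_mem_cantorSet using 1
    norm_num
  -- representatives
  choose rep hrep using fun h : toM.range => h.2
  let Y : Type := {x : ℝ // x ∈ J}
  let o : toM.range → Y := fun h => ⟨(rep h).1 y₀, ((rep h).2.2.2 y₀).mpr hyJ⟩
  let m : Set Y → ℝ := fun A => μ (o ⁻¹' A)
  have hequiv : ∀ (G : H0) (h : toM.range),
      (rep (⟨toM G, ⟨G, rfl⟩⟩ * h)).1 y₀ = G.1 ((rep h).1 y₀) := by
    intro G h
    have h1 : toM (rep (⟨toM G, ⟨G, rfl⟩⟩ * h)) = toM (G * rep h) := by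
      rw [hrep, map_mul, hrep]; rfl
    exact toM_eq h1 hyC
  have hminv : ∀ (G : H0) (g : Y → Y), (∀ y, (g y).1 = G.1 y.1) → ∀ A, m (g ⁻¹' A) = m A := by
    intro G g hg A
    have h1 : (fun h => (⟨toM G, ⟨G, rfl⟩⟩ : toM.range) * h) '' (o ⁻¹' (g ⁻¹' A)) = o ⁻¹' A := by
      ext h
      constructor
      · rintro ⟨h', hh', rfl⟩
        have e : o (⟨toM G, ⟨G, rfl⟩⟩ * h') = g (o h') := by
          apply Subtype.ext
          rw [hg]
          exact hequiv G h'
        change o (⟨toM G, ⟨G, rfl⟩⟩ * h') ∈ A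
        rw [e]
        exact hh'
      · intro hh
        refine ⟨(⟨toM G, ⟨G, rfl⟩⟩ : toM.range)⁻¹ * h, ?_, by simp⟩
        have e : g (o ((⟨toM G, ⟨G, rfl⟩⟩ : toM.range)⁻¹ * h)) = o h := by
          apply Subtype.ext
          rw [hg]
          have := hequiv G ((⟨toM G, ⟨G, rfl⟩⟩ : toM.range)⁻¹ * h)
          rw [mul_inv_cancel_left] at this
          exact this.symm
        change g (o _) ∈ A
        rw [e]
        exact hh
    change μ _ = μ _
    rw [← h1, hinv]
  -- the colouring
  have hv : ∀ y : Y, ∃ v, th v = 9 * th (Int.fract y.1) + (-6) := by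
    intro y
    have h1 := y.2.1
    have h2 := y.2.2
    exact th_surj (by linarith) (by linarith)
  choose v hv using hv
  refine no_mean m ?_ ?_ (fun y => ⟨T y.1, (hT.2.2 y.1).mpr y.2⟩)
    (fun y => ⟨P y.1, (hP.2.2 y.1).mpr y.2⟩) (fun y => ⌊v y⌋) ?_ ?_ ?_ ?_
  · change μ (o ⁻¹' univ) = 1
    rw [preimage_univ, hμ1]
  · intro A B hAB
    change μ (o ⁻¹' (A ∪ B)) = _
    rw [preimage_union]
    exact hadd _ _ (hAB.preimage o)
  · exact hminv ⟨T, hT⟩ _ fun _ => rfl
  · exact hminv ⟨P, hP⟩ _ fun _ => rfl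
  · intro y
    have h1 := hT1 y.1 y.2 (v y) (hv y)
    have h2 : v ⟨T y.1, (hT.2.2 y.1).mpr y.2⟩ = v y + 1 := by
      apply th_mono.injective
      rw [hv]
      exact h1.symm
    change ⌊v ⟨T y.1, (hT.2.2 y.1).mpr y.2⟩⌋ = ⌊v y⌋ + 1
    rw [h2, Int.floor_add_one]
  · intro y
    have h1 := hP1 y.1 y.2 (v y) (hv y)
    have h2 : v ⟨P y.1, (hP.2.2 y.1).mpr y.2⟩ = P₀ (v y) := by
      apply th_mono.injective
      rw [hv]
      exact h1.symm
    change ⌊v ⟨P y.1, (hP.2.2 y.1).mpr y.2⟩⌋ % 2 = 0 ↔ _
    rw [h2]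
    exact hpar _

theorem hom_of_quasi (φ : toM.range → ℝ) (hφ : IsHomogeneousQuasimorphism φ) : IsAdditive φ :=
  fun g h => quasi_hom_of_surj toM.rangeRestrict toM.rangeRestrict_surjective kap ⟨sg, sg_mem⟩
    kap_sg comm_of_kap φ hφ g h

/-- **The negated form of Q1.**  The mapping class group of the plane minus the standard Cantor set
has a non-amenable subgroup `H` for which `Q̃(H) = Q(H) / Hom(H, ℝ)` is finite-dimensional; in fact
all homogeneous quasimorphisms on `H` are homomorphisms, so that `Q̃(H)` is zero. -/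
theorem result : ∃ H : Subgroup (Map planeCantor), ¬ IsAmenable H ∧
    FiniteDimensional ℝ (QTilde H) ∧ Subsingleton (QTilde H) ∧
    ∀ φ : H → ℝ, IsHomogeneousQuasimorphism φ → IsAdditive φ := by
  have htop : HomQ toM.range = ⊤ := by
    rw [eq_top_iff]
    intro φ _
    exact hom_of_quasi φ.1 φ.2
  have hsub : Subsingleton (QTilde toM.range) :=
    (Submodule.Quotient.subsingleton_iff (p := HomQ toM.range)).mpr htop
  refine ⟨toM.range, not_amenable, ?_, hsub, hom_of_quasi⟩
  infer_instance

end Pool.Agent.Results.MP_ac6992_gt.NonAmenableNoQuasi
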